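import Mathlib
import Pool.Agent.LibVamos.Proof

set_option autoImplicit false

namespace Pool.Agent.Results.MP_d1b776_ag.NegOneSumSq

open Pool.Agent.LibVamos

/-- `-1` is a sum of hermitian squares in the generalized Clifford algebra of the Vamos
polynomial in direction `(1, …, 1)`. -/
theorem result : (-1 : CliffordAlg vamos (fun _ => 1)) ∈ SumSq (CliffordAlg vamos (fun _ => 1)) :=
  SS_subset neg_one_mem

end Pool.Agent.Results.MP_d1b776_ag.NegOneSumSq
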